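import Mathlib

set_option autoImplicit false

/-!
Table of upper bounds for `1000 * |j_k'(rho) / j_k(rho)|`, `k = 2 j`, `j = 0, ..., 605`
(the entries for `j = 0` and `j = 239` are `0`).
-/

namespace SFC

/-- the table. -/
def KtL : List ℕ := [
  0, 3, 9, 18, 30, 46, 65, 87, 113, 143, 176, 212,
  253, 299, 349, 404, 466, 535, 613, 701, 803, 923, 1065, 1240,
  1460, 1752, 2159, 2779, 3856, 6248, 16554, 24142, 6779, 3838, 2605, 1913,
  1462, 1137, 885, 679, 502, 343, 195, 52, 94, 246, 413, 607,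
  848, 1172, 1660, 2546, 4865, 36075, 6583, 2895, 1756, 1174, 799, 520,
  291, 83, 122, 340, 597, 934, 1456, 2500, 6388, 13545, 3165, 1663,
  1012, 614, 317, 62, 191, 471, 837, 1420, 2754, 12656, 5078, 1965,
  1075, 601, 264, 27, 326, 694, 1270, 2617, 17294, 3862, 1571, 823,
  391, 56, 272, 669, 1313, 3076, 36063, 2553, 1139, 551, 158, 196,
  609, 1277, 3270, 12973, 2050, 914, 382, 11, 410, 977, 2342, 478715,
  2343, 956, 378, 40, 476, 1153, 3329, 7150, 1555, 641, 147, 288,
  865, 2282, 23642, 1827, 708, 170, 288, 905, 2612, 8605, 1467, 543,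
  29, 473, 1326, 6752, 2654, 857, 221, 279, 969, 3426, 3984, 1027,
  294, 226, 910, 3293, 3795, 962, 239, 300, 1093, 5552, 2387, 700,
  66, 521, 1732, 14626, 1286, 351, 226, 1019, 5716, 2104, 583, 50,
  733, 2971, 3096, 738, 40, 622, 2459, 3609, 772, 46, 635, 2674,
  3030, 676, 31, 777, 4119, 2029, 479, 192, 1124, 40604, 1224, 222,
  461, 2072, 3438, 652, 89, 962, 14172, 1246, 201, 521, 2623, 2324,
  462, 262, 1480, 5231, 710, 90, 1048, 34357, 931, 24, 845, 14154,
  1086, 83, 762, 9136, 1131, 90, 771, 11627, 1048, 43, 876, 0,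
  866, 58, 1116, 6661, 633, 212, 1641, 2656, 382, 441, 3282, 1379,
  119, 816, 36250, 729, 180, 1657, 2271, 288, 590, 8767, 890, 108,
  1465, 2433, 286, 621, 17650, 757, 203, 1992, 1602, 114, 939, 4851,
  422, 494, 7891, 788, 213, 2269, 1305, 3, 1295, 2207, 185, 870,
  4373, 349, 628, 17349, 495, 473, 13738, 620, 373, 6029, 712, 315,
  4530, 762, 291, 4247, 759, 301, 4784, 706, 345, 7053, 610, 426,
  28917, 484, 555, 8794, 337, 755, 3224, 175, 1090, 1736, 5, 1785,
  1033, 214, 4426, 599, 488, 8214, 275, 932, 1836, 18, 2069, 828,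
  346, 611156, 337, 857, 1843, 40, 2449, 683, 467, 5243, 166, 1334,
  1028, 280, 77679, 293, 1014, 1276, 203, 10750, 332, 958, 1276, 216,
  21174, 276, 1118, 1026, 321, 7789, 138, 1685, 677, 547, 2197, 75,
  5010, 333, 1055, 944, 391, 3286, 9, 3673, 351, 1056, 868, 452,
  2266, 106, 14083, 187, 1716, 521, 791, 1039, 388, 2373, 120, 169537,
  107, 2590, 337, 1216, 610, 718, 996, 437, 1681, 240, 3515, 83,
  43955, 53, 4667, 176, 2276, 293, 1516, 407, 1140, 517, 917, 622,
  773, 718, 677, 798, 614, 856, 579, 884, 566, 879, 575, 840,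
  606, 774, 664, 687, 755, 587, 893, 479, 1112, 368, 1491, 256,
  2307, 142, 5430, 23, 11487, 108, 2508, 260, 1270, 456, 747, 756,
  435, 1369, 204, 4165, 1, 4099, 216, 1209, 503, 570, 1056, 235,
  3918, 27, 2527, 309, 789, 774, 302, 2741, 11, 2348, 340, 647,
  982, 182, 25992, 157, 1021, 639, 296, 3539, 83, 1239, 557, 314,
  3390, 96, 1067, 641, 231, 17589, 195, 683, 1012, 73, 2186, 415,
  329, 3972, 153, 674, 1067, 25, 1336, 576, 169, 3761, 360, 295,
  11252, 239, 402, 2894, 170, 477, 2001, 139, 500, 1864, 140, 466,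
  2246, 173, 384, 4462, 243, 273, 7570, 363, 149, 1519, 592, 16,
  671, 1262, 142, 311, 10265, 377, 79, 790, 1049, 139, 256, 2560,
  501, 20, 407, 8418, 341, 37, 487, 3118, 302, 38, 441, 6132,
  351, 13, 298, 2365, 551, 112, 133, 598, 1942, 300, 34, 187,
  742, 1303, 273, 46, 133, 457, 15987, 428, 138, 10, 156, 447,
  31737, 468, 178, 54, 39, 141, 319, 1214, 827, 282, 145, 77,
  33, 1, 26, 47, 65, 82]

/-- the table as a function. -/
def Kt (j : ℕ) : ℕ := KtL.getD j 0

end SFC
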