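import Mathlib

set_option autoImplicit false

/-!
Coefficients of the squares of the Legendre polynomial `P_478`:
`P_478 ^ 2 = Σ_{j ≤ 478} cll j * P_(2j)` with `cll j = (4 j + 1) * W j`.
-/

namespace SFC

/-- `W j = (478 478 2j; 0 0 0)^2`. -/
def W : ℕ → ℚ
  | 0 => 1 / 957
  | (j + 1) => W j * ((2 * j + 1) ^ 2 * (479 + j) * (478 - j)) /
      ((j + 1) ^ 2 * (955 - 2 * j) * (959 + 2 * j))

/-- numerator of the ratio (natural numbers). -/
def nu (j : ℕ) : ℕ := (2 * j + 1) ^ 2 * (479 + j) * (478 - j)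

/-- denominator of the ratio (natural numbers), for `j < 478`. -/
def de (j : ℕ) : ℕ := (j + 1) ^ 2 * (955 - 2 * j) * (959 + 2 * j)

/-- the scale. -/
def sc : ℕ := 10 ^ 30

/-- upper table (scaled by `sc`). -/
def hi : ℕ → ℕ
  | 0 => sc / 957 + 1
  | (j + 1) => hi j * nu j / de j + 1

/-- lower table (scaled by `sc`). -/
def lo : ℕ → ℕ
  | 0 => sc / 957
  | (j + 1) => lo j * nu j / de j

theorem de_pos {j : ℕ} (h : j < 478) : 0 < de j := by
  unfold de
  have h1 : 0 < 955 - 2 * j := by omega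
  positivity

theorem W_succ {j : ℕ} (h : j < 478) : W (j + 1) = W j * (nu j : ℚ) / (de j : ℚ) := by
  have h1 : ((478 - j : ℕ) : ℚ) = 478 - j := by
    rw [Nat.cast_sub (by omega)]; norm_num
  have h2 : ((955 - 2 * j : ℕ) : ℚ) = 955 - 2 * j := by
    rw [Nat.cast_sub (by omega)]; push_cast; ring
  rw [W, nu, de]
  push_cast
  rw [h1, h2]

theorem W_pos {j : ℕ} (h : j ≤ 478) : 0 < W j := by
  induction j with
  | zero => norm_num [W]
  | succ j ih =>
    rw [W_succ (by omega)]
    have h1 : 0 < nu j := by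
      unfold nu
      have : 0 < 478 - j := by omega
      positivity
    have h2 := de_pos (j := j) (by omega)
    have h3 := ih (by omega)
    positivity

theorem W_le_hi {j : ℕ} (h : j ≤ 478) : W j ≤ (hi j : ℚ) / sc := by
  have hs : (0 : ℚ) < sc := by norm_num [sc]
  induction j with
  | zero =>
    rw [W, hi, le_div_iff₀ hs, div_mul_eq_mul_div, div_le_iff₀ (by norm_num)]
    norm_num [sc]
  | succ j ih =>
    have hd : (0 : ℚ) < de j := by exact_mod_cast de_pos (j := j) (by omega)
    have h1 := ih (by omega)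
    rw [W_succ (by omega), hi]
    have h2 : (hi j : ℚ) * nu j / de j ≤ ((hi j * nu j / de j + 1 : ℕ) : ℚ) := by
      rw [div_le_iff₀ hd]
      have h3 : hi j * nu j < (hi j * nu j / de j + 1) * de j := by
        have := Nat.lt_div_mul_add (a := hi j * nu j) (de_pos (j := j) (by omega))
        linarith
      exact_mod_cast h3.le
    calc W j * nu j / de j ≤ (hi j / sc) * nu j / de j := by gcongr
      _ = (hi j * nu j / de j) / sc := by ring
      _ ≤ _ := by gcongr

theorem lo_le_W {j : ℕ} (h : j ≤ 478) : (lo j : ℚ) / sc ≤ W j := by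
  have hs : (0 : ℚ) < sc := by norm_num [sc]
  induction j with
  | zero =>
    rw [W, lo, div_le_iff₀ hs, div_mul_eq_mul_div, le_div_iff₀ (by norm_num)]
    norm_num [sc]
  | succ j ih =>
    have hd : (0 : ℚ) < de j := by exact_mod_cast de_pos (j := j) (by omega)
    have h1 := ih (by omega)
    rw [W_succ (by omega), lo]
    have h2 : ((lo j * nu j / de j : ℕ) : ℚ) ≤ (lo j : ℚ) * nu j / de j := by
      rw [le_div_iff₀ hd]
      exact_mod_cast Nat.div_mul_le_self _ _
    calc ((lo j * nu j / de j : ℕ) : ℚ) / sc ≤ ((lo j : ℚ) * nu j / de j) / sc := by gcongr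
      _ = ((lo j : ℚ) / sc) * nu j / de j := by ring
      _ ≤ _ := by gcongr

end SFC
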