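import Mathlib
import Pool.Agent.H63.SFC.Tab
import Pool.Agent.H63.SFC.Kt

set_option autoImplicit false

/-!
The sums `Σ c_ll^k K_k`, `Σ c_ll^k c_lk^l (...)` for `l = 478`, evaluated by the kernel.
-/

namespace SFC

open Finset

/-- a kernel loop: `acc + Σ_i f (j + i) (hi (j + i)) (L i)`. -/
def goS (f : ℕ → ℕ → ℕ → ℕ) : List ℕ → ℕ → ℕ → ℕ → ℕ
  | [], _, _, acc => acc
  | (k :: t), j, h, acc => goS f t (j + 1) (h * nu j / de j + 1) (acc + f j h k)

theorem goS_eq (f : ℕ → ℕ → ℕ → ℕ) (L : List ℕ) (j acc : ℕ) :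
    goS f L j (hi j) acc = acc + ∑ i ∈ range L.length, f (j + i) (hi (j + i)) (L.getD i 0) := by
  induction L generalizing j acc with
  | nil => simp [goS]
  | cons k t ih =>
    rw [goS]
    have h1 : hi j * nu j / de j + 1 = hi (j + 1) := rfl
    rw [h1, ih (j + 1) (acc + f j (hi j) k), List.length_cons, sum_range_succ']
    simp only [List.getD_cons_succ, List.getD_cons_zero, add_zero]
    have h2 : ∀ i, j + 1 + i = j + (i + 1) := fun i => by ring
    simp only [h2]
    ring

/-- the part of the table for `k ≤ 956`. -/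
def KtS : List ℕ := KtL.take 479

theorem KtS_length : KtS.length = 479 := by decide +kernel

theorem KtS_getD {i : ℕ} (h : i < 479) : KtS.getD i 0 = Kt i := by
  unfold KtS Kt
  rw [List.getD_eq_getElem?_getD, List.getD_eq_getElem?_getD, List.getElem?_take]
  simp [h]

theorem goS_sum (f : ℕ → ℕ → ℕ → ℕ) :
    goS f KtS 0 (sc / 957 + 1) 0 = ∑ j ∈ range 479, f j (hi j) (Kt j) := by
  have h := goS_eq f KtS 0 0
  have h0 : hi 0 = sc / 957 + 1 := rfl
  rw [h0, KtS_length] at h
  rw [h, zero_add]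
  refine sum_congr rfl fun i hi' => ?_
  rw [zero_add, KtS_getD (mem_range.1 hi')]

/-- the summand of `S1`. -/
def f1 (j h k : ℕ) : ℕ := (4 * j + 1) * h * k

/-- the summand of `S3`. -/
def f2 (j h k : ℕ) : ℕ := (4 * j + 1) * 957 * h ^ 2 * (1211 * k + 2000)

/-- the summand of `S4`. -/
def f3 (j h k : ℕ) : ℕ := (4 * j + 1) * 957 * h ^ 2 * (k + 1000)

theorem num1 : ∑ j ∈ range 479, f1 j (hi j) (Kt j) ≤ 44518 * 10 ^ 29 := by
  rw [← goS_sum f1]
  decide +kernel

theorem num2 : ∑ j ∈ range 479, f2 j (hi j) (Kt j) ≤ 12499 * 10 ^ 60 := by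
  rw [← goS_sum f2]
  decide +kernel

theorem num3 : ∑ j ∈ range 479, f3 j (hi j) (Kt j) ≤ 1592 * 10 ^ 58 := by
  rw [← goS_sum f3]
  decide +kernel

/-- a kernel loop checking a bound of all entries. -/
def allS (p : ℕ → ℕ → ℕ → Bool) : List ℕ → ℕ → ℕ → Bool
  | [], _, _ => true
  | (k :: t), j, h => p j h k && allS p t (j + 1) (h * nu j / de j + 1)

theorem allS_imp (p : ℕ → ℕ → ℕ → Bool) (L : List ℕ) (j : ℕ) (h : allS p L j (hi j) = true) :
    ∀ i < L.length, p (j + i) (hi (j + i)) (L.getD i 0) = true := by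
  induction L generalizing j with
  | nil => simp
  | cons k t ih =>
    rw [allS, Bool.and_eq_true] at h
    have h1 : hi j * nu j / de j + 1 = hi (j + 1) := rfl
    rw [h1] at h
    intro i hi'
    rcases i with _ | i
    · simpa using h.1
    · have h2 := ih (j + 1) h.2 i (by simpa using hi')
      have h3 : j + 1 + i = j + (i + 1) := by ring
      rw [h3] at h2
      simpa using h2

theorem allS_KtS (p : ℕ → ℕ → ℕ → Bool) (h : allS p KtS 0 (sc / 957 + 1) = true) :
    ∀ j < 479, p j (hi j) (Kt j) = true := by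
  intro j hj
  have h0 : hi 0 = sc / 957 + 1 := rfl
  rw [← h0] at h
  have h1 := allS_imp p KtS 0 h j (by rw [KtS_length]; exact hj)
  rwa [zero_add, KtS_getD hj] at h1

theorem num4 : ∀ j < 479, 1 ≤ j → 957 * hi j * (Kt j + 1000) ≤ 13223 * 10 ^ 29 := by
  have h := allS_KtS (fun j h k => j == 0 || Nat.ble (957 * h * (k + 1000)) (13223 * 10 ^ 29))
    (by decide +kernel)
  intro j hj h1
  have h2 := h j hj
  simp only [Bool.or_eq_true, beq_iff_eq, Nat.ble_eq] at h2
  rcases h2 with h2 | h2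
  · omega
  · exact h2

theorem num5 : ∀ j < 479, 1 ≤ j → 957 * hi j ≤ 250001 * 10 ^ 24 := by
  have h := allS_KtS (fun j h _ => j == 0 || Nat.ble (957 * h) (250001 * 10 ^ 24))
    (by decide +kernel)
  intro j hj h1
  have h2 := h j hj
  simp only [Bool.or_eq_true, beq_iff_eq, Nat.ble_eq] at h2
  rcases h2 with h2 | h2
  · omega
  · exact h2

theorem num6 : ∀ j < 479, (4 * j + 1) * hi j ≤ 36481 * 10 ^ 24 := by
  have h := allS_KtS (fun j h _ => Nat.ble ((4 * j + 1) * h) (36481 * 10 ^ 24))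
    (by decide +kernel)
  intro j hj
  have h2 := h j hj
  simpa only [Nat.ble_eq] using h2

theorem num_g_lo : 15362686 * 10 ^ 20 ≤ 957 * lo 239 := by decide +kernel

theorem num_g_hi : 957 * hi 239 ≤ 15362687 * 10 ^ 20 := by decide +kernel

end SFC
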