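import Mathlib
import Pool.Agent.H63.SFC.Sum

set_option autoImplicit false

/-!
Real valued versions: `cl j = c_ll^(2j)`, `bk j = c_(l,2j)^l` for `l = 478`, and the weighted sums,
for any sequence `K` with `|K j| ≤ Kt j / 1000` for `j ≠ 239`.
-/

namespace SFC

open Finset

/-- `c_ll^(2j)`, `l = 478`: the coefficient of `P_(2j)` in `P_478 ^ 2`. -/
noncomputable def cl (j : ℕ) : ℝ := (4 * j + 1) * ((W j : ℚ) : ℝ)

/-- `c_(l,2j)^l`, `l = 478`: the coefficient of `P_478` in `P_478 * P_(2j)`. -/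
noncomputable def bk (j : ℕ) : ℝ := 957 * ((W j : ℚ) : ℝ)

/-- the hypothesis on the numbers `K j = j_(2j)'(rho) / j_(2j)(rho)`. -/
def KBound (K : ℕ → ℝ) : Prop := ∀ j < 479, j ≠ 239 → |K j| ≤ (Kt j : ℝ) / 1000

theorem W_nonneg {j : ℕ} (h : j < 479) : 0 ≤ ((W j : ℚ) : ℝ) := by
  exact_mod_cast (W_pos (j := j) (by omega)).le

theorem W_le {j : ℕ} (h : j < 479) : ((W j : ℚ) : ℝ) ≤ (hi j : ℝ) / 10 ^ 30 := by
  have := W_le_hi (j := j) (by omega)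
  have h2 : ((W j : ℚ) : ℝ) ≤ (((hi j : ℚ) / sc : ℚ) : ℝ) := by exact_mod_cast this
  refine h2.trans (le_of_eq ?_)
  push_cast [sc]
  norm_num

theorem le_W {j : ℕ} (h : j < 479) : (lo j : ℝ) / 10 ^ 30 ≤ ((W j : ℚ) : ℝ) := by
  have := lo_le_W (j := j) (by omega)
  have h2 : (((lo j : ℚ) / sc : ℚ) : ℝ) ≤ ((W j : ℚ) : ℝ) := by exact_mod_cast this
  refine le_trans (le_of_eq ?_) h2
  push_cast [sc]
  norm_num

theorem cl_nonneg {j : ℕ} (h : j < 479) : 0 ≤ cl j :=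
  mul_nonneg (by positivity) (W_nonneg h)

theorem bk_nonneg {j : ℕ} (h : j < 479) : 0 ≤ bk j :=
  mul_nonneg (by positivity) (W_nonneg h)

theorem cl_zero : cl 0 = 1 / 957 := by norm_num [cl, W]

theorem bk_zero : bk 0 = 1 := by norm_num [bk, W]

theorem bk_eq_cl : bk 239 = cl 239 := by norm_num [bk, cl]

theorem cl_239_gt : (0.0015362686 : ℝ) ≤ cl 239 := by
  rw [← bk_eq_cl, bk]
  have h1 := le_W (j := 239) (by norm_num)
  have h2 : ((15362686 * 10 ^ 20 : ℕ) : ℝ) ≤ ((957 * lo 239 : ℕ) : ℝ) := by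
    exact_mod_cast num_g_lo
  push_cast at h2
  linarith

theorem cl_239_lt : cl 239 ≤ (0.0015362687 : ℝ) := by
  rw [← bk_eq_cl, bk]
  have h1 := W_le (j := 239) (by norm_num)
  have h2 : ((957 * hi 239 : ℕ) : ℝ) ≤ ((15362687 * 10 ^ 20 : ℕ) : ℝ) := by
    exact_mod_cast num_g_hi
  push_cast at h2
  linarith

theorem cl_le {j : ℕ} (h : j < 479) : cl j ≤ 0.036481 := by
  rw [cl]
  have h1 := W_le h
  have h2 : (((4 * j + 1) * hi j : ℕ) : ℝ) ≤ ((36481 * 10 ^ 24 : ℕ) : ℝ) := by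
    exact_mod_cast num6 j h
  push_cast at h2
  calc ((4 * (j : ℝ) + 1)) * ((W j : ℚ) : ℝ) ≤ (4 * j + 1) * ((hi j : ℝ) / 10 ^ 30) := by gcongr
    _ = ((4 * j + 1) * hi j) / 10 ^ 30 := by ring
    _ ≤ (36481 * 10 ^ 24) / 10 ^ 30 := div_le_div_of_nonneg_right (by linarith) (by positivity)
    _ = 0.036481 := by norm_num

theorem bk_le {j : ℕ} (h : j < 479) (h1 : 1 ≤ j) : bk j ≤ 0.250001 := by
  rw [bk]
  have h1 := W_le h
  have h2 : ((957 * hi j : ℕ) : ℝ) ≤ ((250001 * 10 ^ 24 : ℕ) : ℝ) := by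
    exact_mod_cast num5 j h (by omega)
  push_cast at h2
  calc 957 * ((W j : ℚ) : ℝ) ≤ 957 * ((hi j : ℝ) / 10 ^ 30) := by gcongr
    _ = (957 * hi j) / 10 ^ 30 := by ring
    _ ≤ (250001 * 10 ^ 24) / 10 ^ 30 := div_le_div_of_nonneg_right (by linarith) (by positivity)
    _ = 0.250001 := by norm_num

theorem bk_mul_le {K : ℕ → ℝ} (hK : KBound K) {j : ℕ} (h : j < 479) (h1 : 1 ≤ j) (h2 : j ≠ 239) :
    bk j * (1 + |K j|) ≤ 1.3223 := by
  rw [bk]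
  have h3 := W_le h
  have h4 := hK j h h2
  have h5 : ((957 * hi j * (Kt j + 1000) : ℕ) : ℝ) ≤ ((13223 * 10 ^ 29 : ℕ) : ℝ) := by
    exact_mod_cast num4 j h h1
  push_cast at h5
  have h6 := W_nonneg h
  calc 957 * ((W j : ℚ) : ℝ) * (1 + |K j|)
      ≤ 957 * ((hi j : ℝ) / 10 ^ 30) * (1 + (Kt j : ℝ) / 1000) := by gcongr
    _ = (957 * hi j * (Kt j + 1000)) / 10 ^ 33 := by ring
    _ ≤ (13223 * 10 ^ 29) / 10 ^ 33 := div_le_div_of_nonneg_right (by linarith) (by positivity)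
    _ = 1.3223 := by norm_num

/-- `Σ_{k ≠ l} c_ll^k |K_k| ≤ 4.4518`. -/
theorem sum_cl_K {K : ℕ → ℝ} (hK : KBound K) :
    ∑ j ∈ (range 479).erase 239, cl j * |K j| ≤ 4.4518 := by
  have h1 : ∑ j ∈ (range 479).erase 239, cl j * |K j| ≤
      ∑ j ∈ (range 479).erase 239, (f1 j (hi j) (Kt j) : ℝ) / 10 ^ 33 := by
    refine sum_le_sum fun j hj => ?_
    have hj1 := mem_range.1 (mem_of_mem_erase hj)
    have hj2 := ne_of_mem_erase hj
    have h3 := W_le hj1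
    have h4 := hK j hj1 hj2
    have h6 := W_nonneg hj1
    rw [cl]
    calc (4 * (j : ℝ) + 1) * ((W j : ℚ) : ℝ) * |K j|
        ≤ (4 * j + 1) * ((hi j : ℝ) / 10 ^ 30) * ((Kt j : ℝ) / 1000) := by gcongr
      _ = _ := by rw [f1]; push_cast; ring
  have h2 : ∑ j ∈ (range 479).erase 239, (f1 j (hi j) (Kt j) : ℝ) / 10 ^ 33 ≤
      ∑ j ∈ range 479, (f1 j (hi j) (Kt j) : ℝ) / 10 ^ 33 :=
    sum_le_sum_of_subset_of_nonneg (erase_subset _ _) fun _ _ _ => by positivity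
  have h3 : ((∑ j ∈ range 479, f1 j (hi j) (Kt j) : ℕ) : ℝ) ≤ ((44518 * 10 ^ 29 : ℕ) : ℝ) := by
    exact_mod_cast num1
  push_cast at h3
  calc _ ≤ _ := h1
    _ ≤ _ := h2
    _ = (∑ j ∈ range 479, (f1 j (hi j) (Kt j) : ℝ)) / 10 ^ 33 := (sum_div _ _ _).symm
    _ ≤ (44518 * 10 ^ 29) / 10 ^ 33 := div_le_div_of_nonneg_right (by linarith) (by positivity)
    _ = 4.4518 := by norm_num

/-- `S3 = Σ_{k ≠ l} c_ll^k c_lk^l (|K_k| / 2 + 1 / 1211) ≤ 0.0051607`. -/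
theorem sum_cl_bk_K {K : ℕ → ℝ} (hK : KBound K) :
    ∑ j ∈ (range 479).erase 239, cl j * bk j * (|K j| / 2 + 1 / 1211) ≤ 0.0051607 := by
  have h1 : ∑ j ∈ (range 479).erase 239, cl j * bk j * (|K j| / 2 + 1 / 1211) ≤
      ∑ j ∈ (range 479).erase 239, (f2 j (hi j) (Kt j) : ℝ) / (2422000 * 10 ^ 60) := by
    refine sum_le_sum fun j hj => ?_
    have hj1 := mem_range.1 (mem_of_mem_erase hj)
    have hj2 := ne_of_mem_erase hj
    have h3 := W_le hj1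
    have h4 := hK j hj1 hj2
    have h6 := W_nonneg hj1
    rw [cl, bk]
    calc (4 * (j : ℝ) + 1) * ((W j : ℚ) : ℝ) * (957 * ((W j : ℚ) : ℝ)) * (|K j| / 2 + 1 / 1211)
        ≤ (4 * j + 1) * ((hi j : ℝ) / 10 ^ 30) * (957 * ((hi j : ℝ) / 10 ^ 30)) *
          (((Kt j : ℝ) / 1000) / 2 + 1 / 1211) := by gcongr
      _ = _ := by rw [f2]; push_cast; ring
  have h2 : ∑ j ∈ (range 479).erase 239, (f2 j (hi j) (Kt j) : ℝ) / (2422000 * 10 ^ 60) ≤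
      ∑ j ∈ range 479, (f2 j (hi j) (Kt j) : ℝ) / (2422000 * 10 ^ 60) :=
    sum_le_sum_of_subset_of_nonneg (erase_subset _ _) fun _ _ _ => by positivity
  have h3 : ((∑ j ∈ range 479, f2 j (hi j) (Kt j) : ℕ) : ℝ) ≤ ((12499 * 10 ^ 60 : ℕ) : ℝ) := by
    exact_mod_cast num2
  push_cast at h3
  calc _ ≤ _ := h1
    _ ≤ _ := h2
    _ = (∑ j ∈ range 479, (f2 j (hi j) (Kt j) : ℝ)) / (2422000 * 10 ^ 60) := (sum_div _ _ _).symm
    _ ≤ (12499 * 10 ^ 60) / (2422000 * 10 ^ 60) := div_le_div_of_nonneg_right (by linarith) (by positivity)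
    _ ≤ 0.0051607 := by norm_num

/-- `S4 = Σ_{k ≠ l} c_ll^k c_lk^l (1 + |K_k|) ≤ 0.01592`. -/
theorem sum_cl_bk_one_K {K : ℕ → ℝ} (hK : KBound K) :
    ∑ j ∈ (range 479).erase 239, cl j * bk j * (1 + |K j|) ≤ 0.01592 := by
  have h1 : ∑ j ∈ (range 479).erase 239, cl j * bk j * (1 + |K j|) ≤
      ∑ j ∈ (range 479).erase 239, (f3 j (hi j) (Kt j) : ℝ) / (10 ^ 63) := by
    refine sum_le_sum fun j hj => ?_
    have hj1 := mem_range.1 (mem_of_mem_erase hj)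
    have hj2 := ne_of_mem_erase hj
    have h3 := W_le hj1
    have h4 := hK j hj1 hj2
    have h6 := W_nonneg hj1
    rw [cl, bk]
    calc (4 * (j : ℝ) + 1) * ((W j : ℚ) : ℝ) * (957 * ((W j : ℚ) : ℝ)) * (1 + |K j|)
        ≤ (4 * j + 1) * ((hi j : ℝ) / 10 ^ 30) * (957 * ((hi j : ℝ) / 10 ^ 30)) *
          (1 + (Kt j : ℝ) / 1000) := by gcongr
      _ = _ := by rw [f3]; push_cast; ring
  have h2 : ∑ j ∈ (range 479).erase 239, (f3 j (hi j) (Kt j) : ℝ) / (10 ^ 63) ≤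
      ∑ j ∈ range 479, (f3 j (hi j) (Kt j) : ℝ) / (10 ^ 63) :=
    sum_le_sum_of_subset_of_nonneg (erase_subset _ _) fun _ _ _ => by positivity
  have h3 : ((∑ j ∈ range 479, f3 j (hi j) (Kt j) : ℕ) : ℝ) ≤ ((1592 * 10 ^ 58 : ℕ) : ℝ) := by
    exact_mod_cast num3
  push_cast at h3
  calc _ ≤ _ := h1
    _ ≤ _ := h2
    _ = (∑ j ∈ range 479, (f3 j (hi j) (Kt j) : ℝ)) / (10 ^ 63) := (sum_div _ _ _).symm
    _ ≤ (1592 * 10 ^ 58) / (10 ^ 63) := div_le_div_of_nonneg_right (by linarith) (by positivity)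
    _ = 0.01592 := by norm_num

end SFC
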