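import Mathlib
import Pool.Agent.H27.Leg.Adams
import Pool.Agent.H63.SFC.Real

set_option autoImplicit false

/-!
`cl j` and `bk j` are the Adams coefficients `c 478 478 (2j)`, `c 478 (2j) 478`.
-/

namespace SFC

open Pool.Agent.H27.Leg

theorem al_ne (m : ℕ) : al m ≠ 0 := (al_pos m).ne'

theorem al_step (m : ℕ) : al (m + 1) = (2 * (m : ℚ) + 1) / (2 * ((m : ℚ) + 1)) * al m := by
  have h := al_succ m
  have h2 : (2 * ((m : ℚ) + 1)) ≠ 0 := by positivity
  field_simp
  linarith

theorem W_eq_al {j : ℕ} (h : j ≤ 478) :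
    W j = al j ^ 2 * al (478 - j) / (al (478 + j) * (957 + 2 * j)) := by
  induction j with
  | zero =>
    have h1 := al_ne 478
    simp only [W, al_zero, Nat.sub_zero, Nat.cast_zero, mul_zero, add_zero, one_pow,
      one_mul]
    field_simp
  | succ j ih =>
    have h1 := ih (by omega)
    have e1 : 478 - j = (478 - (j + 1)) + 1 := by omega
    have e2 : 478 + (j + 1) = (478 + j) + 1 := by omega
    have h3 : ((478 - (j + 1) : ℕ) : ℚ) = 477 - j := by
      rw [Nat.cast_sub (by omega)]; push_cast; ring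
    have s1 := al_step j
    have s2 := al_step (478 - (j + 1))
    have s3 := al_step (478 + j)
    rw [← e1, h3] at s2
    rw [← e2] at s3
    push_cast at s3
    have n1 := al_ne (478 + j)
    have hj : (j : ℚ) ≤ 477 := by
      have : j ≤ 477 := by omega
      exact_mod_cast this
    have hj0 : (0 : ℚ) ≤ j := by positivity
    have d1 : (955 - 2 * (j : ℚ)) ≠ 0 := by
      have : (0 : ℚ) < 955 - 2 * j := by linarith
      exact this.ne'
    have d2 : (959 + 2 * (j : ℚ)) ≠ 0 := by positivity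
    have d3 : ((j : ℚ) + 1) ≠ 0 := by positivity
    have d4 : (957 + 2 * (j : ℚ)) ≠ 0 := by positivity
    have d5 : (478 - (j : ℚ)) ≠ 0 := by
      have : (0 : ℚ) < 478 - j := by linarith
      exact this.ne'
    have d6 : (479 + (j : ℚ)) ≠ 0 := by positivity
    have n2 := al_ne (478 - (j + 1))
    rw [W, h1, s1, s2, s3]
    push_cast
    have d7 : (2 * (477 - (j : ℚ)) + 1) ≠ 0 := by
      have : (0 : ℚ) < 2 * (477 - (j : ℚ)) + 1 := by linarith
      exact this.ne'
    have d8 : (2 * (478 + (j : ℚ)) + 1) ≠ 0 := by positivity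
    have d9 : (477 - (j : ℚ) + 1) ≠ 0 := by
      have : (0 : ℚ) < 477 - (j : ℚ) + 1 := by linarith
      exact this.ne'
    have d10 : (478 + (j : ℚ) + 1) ≠ 0 := by positivity
    have d11 : (957 + 2 * ((j : ℚ) + 1)) ≠ 0 := by positivity
    field_simp
    ring

theorem cq_ll {j : ℕ} (h : j ≤ 478) : cq 478 478 (2 * j) = (4 * j + 1) * W j := by
  have ht : Tri 478 478 (2 * j) := by
    unfold Tri
    omega
  have e0 : (478 + 478 + 2 * j) / 2 = 478 + j := by omega
  have e1 : 478 + j - 478 = j := by omega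
  have e2 : 478 + j - 2 * j = 478 - j := by omega
  unfold cq
  rw [if_pos ht, e0, e1, e2, W_eq_al h]
  have n1 := al_ne (478 + j)
  have d1 : ((957 : ℚ) + 2 * j) ≠ 0 := by positivity
  push_cast
  have d2 : ((478 : ℚ) + 478 + 2 * j + 1) ≠ 0 := by positivity
  field_simp
  ring

theorem cq_lk {j : ℕ} (h : j ≤ 478) : cq 478 (2 * j) 478 = 957 * W j := by
  have ht : Tri 478 (2 * j) 478 := by
    unfold Tri
    omega
  have e0 : (478 + 2 * j + 478) / 2 = 478 + j := by omega
  have e1 : 478 + j - 478 = j := by omega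
  have e2 : 478 + j - 2 * j = 478 - j := by omega
  unfold cq
  rw [if_pos ht, e0, e1, e2, W_eq_al h]
  have n1 := al_ne (478 + j)
  have d1 : ((957 : ℚ) + 2 * j) ≠ 0 := by positivity
  push_cast
  have d2 : ((478 : ℚ) + 2 * j + 478 + 1) ≠ 0 := by positivity
  field_simp
  ring

/-- `c 478 478 (2j) = cl j`. -/
theorem c_ll {j : ℕ} (h : j < 479) : c 478 478 (2 * j) = cl j := by
  unfold c cl
  rw [cq_ll (by omega)]
  push_cast
  ring

/-- `c 478 (2j) 478 = bk j`. -/
theorem c_lk {j : ℕ} (h : j < 479) : c 478 (2 * j) 478 = bk j := by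
  unfold c bk
  rw [cq_lk (by omega)]
  push_cast
  ring

/-- beyond `956` the coefficients vanish. -/
theorem c_ll_zero {k : ℕ} (h : 956 < k) : c 478 478 k = 0 :=
  c_zero fun ht => by
    unfold Tri at ht
    omega

theorem c_lk_zero {k : ℕ} (h : 956 < k) : c 478 k 478 = 0 :=
  c_zero fun ht => by
    unfold Tri at ht
    omega

end SFC
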