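import Mathlib
import Pool.Agent.H63.SFC.Link

set_option autoImplicit false

/-!
Final form of the block: numerical facts on the coefficients `c 478 478 k` and `c 478 k 478`.
`K k` stands for `j_k'(rho) / j_k(rho)`.
-/

namespace SFC

open Finset Pool.Agent.H27.Leg

/-- the hypothesis: `|K k| ≤ Kt (k / 2) / 1000` for all even `k ≤ 956`, `k ≠ 478`. -/
def KB (K : ℕ → ℝ) : Prop :=
  ∀ k ≤ 956, Even k → k ≠ 478 → |K k| ≤ (Kt (k / 2) : ℝ) / 1000

theorem KB.toKBound {K : ℕ → ℝ} (h : KB K) : KBound fun j => K (2 * j) := by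
  intro j hj h1
  have h2 := h (2 * j) (by omega) (even_two_mul j) (by omega)
  rwa [Nat.mul_div_cancel_left _ (by norm_num : 0 < 2)] at h2

theorem c_odd {k : ℕ} (h : ¬ Even k) : c 478 478 k = 0 :=
  c_zero fun ht => by
    unfold Tri at ht
    exact h (Nat.even_iff.2 (by omega))

theorem c_odd' {k : ℕ} (h : ¬ Even k) : c 478 k 478 = 0 :=
  c_zero fun ht => by
    unfold Tri at ht
    exact h (Nat.even_iff.2 (by omega))

theorem sum_even (F : ℕ → ℝ) (hF : ∀ j, F (2 * j + 1) = 0) (n : ℕ) :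
    ∑ k ∈ range (2 * n + 1), F k = ∑ j ∈ range (n + 1), F (2 * j) := by
  induction n with
  | zero => simp
  | succ n ih =>
    rw [show 2 * (n + 1) + 1 = (2 * n + 1) + 1 + 1 by ring, sum_range_succ, sum_range_succ, ih,
      sum_range_succ _ (n + 1), hF n, add_zero]
    rfl

theorem sum_even_erase (F : ℕ → ℝ) (hF : ∀ j, F (2 * j + 1) = 0) :
    ∑ k ∈ (range 957).erase 478, F k = ∑ j ∈ (range 479).erase 239, F (2 * j) := by
  have h1 := sum_even F hF 478
  have h2 := add_sum_erase (range 957) F (a := 478) (by simp)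
  have h3 := add_sum_erase (range 479) (fun j => F (2 * j)) (a := 239) (by simp)
  have h4 : 2 * 239 = 478 := by norm_num
  have h5 : 2 * 478 + 1 = 957 := by norm_num
  have h6 : 478 + 1 = 479 := by norm_num
  rw [h5, h6] at h1
  rw [h4] at h3
  linarith

/-- `g = c_ll^l`, `l = 478`. -/
theorem g_gt : (0.0015362686 : ℝ) ≤ c 478 478 478 := by
  have := c_ll (j := 239) (by norm_num)
  norm_num at this
  rw [this]
  simpa using cl_239_gt

theorem g_lt : c 478 478 478 ≤ (0.0015362687 : ℝ) := by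
  have := c_ll (j := 239) (by norm_num)
  norm_num at this
  rw [this]
  simpa using cl_239_lt

theorem c_ll_le (k : ℕ) : c 478 478 k ≤ 0.036481 := by
  by_cases h : 956 < k
  · rw [c_ll_zero h]; norm_num
  by_cases h2 : Even k
  · obtain ⟨j, rfl⟩ := h2.two_dvd
    rw [c_ll (by omega)]
    exact cl_le (by omega)
  · rw [c_odd h2]; norm_num

theorem c_lk_le {k : ℕ} (h0 : 1 ≤ k) : c 478 k 478 ≤ 0.250001 := by
  by_cases h : 956 < k
  · rw [c_lk_zero h]; norm_num
  by_cases h2 : Even k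
  · obtain ⟨j, rfl⟩ := h2.two_dvd
    rw [c_lk (by omega)]
    exact bk_le (by omega) (by omega)
  · rw [c_odd' h2]; norm_num

theorem c_l0 : c 478 0 478 = 1 := by
  have := c_lk (j := 0) (by norm_num)
  simpa [bk_zero] using this

theorem c_ll0 : c 478 478 0 = 1 / 957 := by
  have := c_ll (j := 0) (by norm_num)
  simpa [cl_zero] using this

theorem c_lk_mul_le {K : ℕ → ℝ} (hK : KB K) {k : ℕ} (h0 : 1 ≤ k) (h1 : k ≠ 478) :
    c 478 k 478 * (1 + |K k|) ≤ 1.3223 := by
  by_cases h : 956 < k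
  · rw [c_lk_zero h]; norm_num
  by_cases h2 : Even k
  · obtain ⟨j, rfl⟩ := h2.two_dvd
    rw [c_lk (by omega)]
    exact bk_mul_le hK.toKBound (by omega) (by omega) (by omega)
  · rw [c_odd' h2]; norm_num

/-- `Σ_{k ≠ l} c_ll^k |K_k| ≤ 4.4518`. -/
theorem sum_c_K {K : ℕ → ℝ} (hK : KB K) :
    ∑ k ∈ (range 957).erase 478, c 478 478 k * |K k| ≤ 4.4518 := by
  rw [sum_even_erase (fun k => c 478 478 k * |K k|)
    fun j => by rw [c_odd (by simp), zero_mul]]
  refine le_trans (le_of_eq (sum_congr rfl fun j hj => ?_)) (sum_cl_K hK.toKBound)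
  rw [c_ll (mem_range.1 (mem_of_mem_erase hj))]

/-- `Σ_{k ≠ l} c_ll^k c_lk^l (|K_k| / 2 + 1 / 1211) ≤ 0.0051607`. -/
theorem sum_c_c_K {K : ℕ → ℝ} (hK : KB K) :
    ∑ k ∈ (range 957).erase 478, c 478 478 k * c 478 k 478 * (|K k| / 2 + 1 / 1211) ≤
      0.0051607 := by
  rw [sum_even_erase (fun k => c 478 478 k * c 478 k 478 * (|K k| / 2 + 1 / 1211))
    fun j => by rw [c_odd (by simp), zero_mul, zero_mul]]
  refine le_trans (le_of_eq (sum_congr rfl fun j hj => ?_)) (sum_cl_bk_K hK.toKBound)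
  rw [c_ll (mem_range.1 (mem_of_mem_erase hj)), c_lk (mem_range.1 (mem_of_mem_erase hj))]

/-- `Σ_{k ≠ l} c_ll^k c_lk^l (1 + |K_k|) ≤ 0.01592`. -/
theorem sum_c_c_one_K {K : ℕ → ℝ} (hK : KB K) :
    ∑ k ∈ (range 957).erase 478, c 478 478 k * c 478 k 478 * (1 + |K k|) ≤ 0.01592 := by
  rw [sum_even_erase (fun k => c 478 478 k * c 478 k 478 * (1 + |K k|))
    fun j => by rw [c_odd (by simp), zero_mul, zero_mul]]
  refine le_trans (le_of_eq (sum_congr rfl fun j hj => ?_)) (sum_cl_bk_one_K hK.toKBound)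
  rw [c_ll (mem_range.1 (mem_of_mem_erase hj)), c_lk (mem_range.1 (mem_of_mem_erase hj))]

end SFC
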