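import Mathlib
import Pool.Agent.H94.SF.Defs
import Pool.Agent.H21.SN.KB

set_option autoImplicit false

/-!
The `c`-part of `SF.Num`: `g_gt`, `g_lt`, `S2_le`, `S3_le`, `c_back_le`.
`val` is the identification of `SN.K` with the logarithmic derivatives.
-/

noncomputable section

namespace SFC

open Finset Pool.Agent.H27.Leg
open Pool.Agent.H68.SC (jl djl)
open SF (rho ell)

theorem num_g_gt : (15362 / 10 ^ 7 : ℝ) < c ell ell ell := by
  have h : (15362 / 10 ^ 7 : ℝ) < 0.0015362686 := by norm_num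
  exact lt_of_lt_of_le h g_gt

theorem num_g_lt : c ell ell ell < (15363 / 10 ^ 7 : ℝ) := by
  have h : (0.0015362687 : ℝ) < 15363 / 10 ^ 7 := by norm_num
  exact lt_of_le_of_lt g_lt h

theorem num_c_back_le (k : ℕ) (hk : 2 ≤ k) : c ell k ell ≤ 251 / 1000 := by
  have h : (0.250001 : ℝ) ≤ 251 / 1000 := by norm_num
  exact (c_lk_le (k := k) (by omega)).trans h

/-- `|K / 2 + 1 / rho| ≤ |K| / 2 + 1 / 1211` -/
theorem abs_Kq (a : ℝ) : |a / 2 + 1 / rho| ≤ |a| / 2 + 1 / 1211 := by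
  have h1 : (1211 : ℝ) < rho := lt_trans (by norm_num) SN.rho_gt
  have h2 : (1 : ℝ) / rho ≤ 1 / 1211 := one_div_le_one_div_of_le (by norm_num) h1.le
  have h3 : 0 ≤ (1 : ℝ) / rho := by positivity
  calc |a / 2 + 1 / rho| ≤ |a / 2| + |1 / rho| := abs_add_le _ _
    _ = |a| / 2 + 1 / rho := by rw [abs_div, abs_of_nonneg h3, abs_of_pos (by norm_num : (0 : ℝ) < 2)]
    _ ≤ _ := by linarith

theorem sum_cl_le_one : ∑ j ∈ (range 479).erase 239, cl j ≤ 1 := by
  have h1 := c_sum 478 478 957 (by norm_num)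
  have h2 := sum_even (fun k => c 478 478 k) (fun j => c_odd (by simp)) 478
  have h3 : ∑ j ∈ range 479, cl j = 1 := by
    rw [← h1, show (957 : ℕ) = 2 * 478 + 1 by norm_num, h2]
    exact sum_congr rfl fun j hj => (c_ll (mem_range.1 hj)).symm
  rw [← h3]
  refine sum_le_sum_of_subset_of_nonneg (erase_subset _ _) fun j hj _ => ?_
  exact cl_nonneg (mem_range.1 hj)

theorem ite_sum (F : ℕ → ℝ) :
    ∑ i ∈ range 479, (if 2 * i = ell then 0 else F i) = ∑ i ∈ (range 479).erase 239, F i := by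
  have h1 := add_sum_erase (range 479) (fun i => if 2 * i = ell then 0 else F i) (a := 239) (by simp)
  have h2 : (if 2 * 239 = ell then 0 else F 239) = 0 := if_pos rfl
  rw [← h1, h2, zero_add]
  refine sum_congr rfl fun i hi => ?_
  have h3 := ne_of_mem_erase hi
  rw [if_neg]
  unfold ell
  omega

/-- `S2 ≤ 2.3` -/
theorem num_S2_le
    (val : ∀ k ≤ 956, Even k → k ≠ 478 → djl k rho / jl k rho = SN.K k) :
    ∑ i ∈ range 479, (if 2 * i = ell then 0 else
      |djl (2 * i) rho / jl (2 * i) rho / 2 + 1 / rho| * c ell ell (2 * i)) ≤ 23 / 10 := by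
  rw [ite_sum]
  have h0 : ∀ i ∈ (range 479).erase 239,
      |djl (2 * i) rho / jl (2 * i) rho / 2 + 1 / rho| * c ell ell (2 * i) ≤
      cl i * |SN.K (2 * i)| / 2 + cl i * (1 / 1211) := by
    intro i hi
    have h1 := mem_range.1 (mem_of_mem_erase hi)
    have h2 := ne_of_mem_erase hi
    rw [val (2 * i) (by omega) (even_two_mul i) (by omega), show ell = 478 from rfl, c_ll h1]
    have h3 := mul_le_mul_of_nonneg_right (abs_Kq (SN.K (2 * i))) (cl_nonneg h1)
    linarith
  refine (sum_le_sum h0).trans ?_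
  rw [sum_add_distrib, ← sum_mul, ← sum_div]
  have h4 := sum_cl_K SN.kb.toKBound
  have h5 := sum_cl_le_one
  have h6 : (∑ j ∈ (range 479).erase 239, cl j) * (1 / 1211) ≤ 1 * (1 / 1211) :=
    mul_le_mul_of_nonneg_right h5 (by norm_num)
  have h7 : (4.4518 : ℝ) / 2 + 1 * (1 / 1211) ≤ 23 / 10 := by norm_num
  linarith

/-- `S3 ≤ 0.0053` -/
theorem num_S3_le
    (val : ∀ k ≤ 956, Even k → k ≠ 478 → djl k rho / jl k rho = SN.K k) :
    ∑ i ∈ range 479, (if 2 * i = ell then 0 else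
      |djl (2 * i) rho / jl (2 * i) rho / 2 + 1 / rho| * c ell ell (2 * i) *
        c ell (2 * i) ell) ≤ 53 / 10 ^ 4 := by
  rw [ite_sum]
  have h0 : ∀ i ∈ (range 479).erase 239,
      |djl (2 * i) rho / jl (2 * i) rho / 2 + 1 / rho| * c ell ell (2 * i) * c ell (2 * i) ell ≤
      cl i * bk i * (|SN.K (2 * i)| / 2 + 1 / 1211) := by
    intro i hi
    have h1 := mem_range.1 (mem_of_mem_erase hi)
    have h2 := ne_of_mem_erase hi
    rw [val (2 * i) (by omega) (even_two_mul i) (by omega), show ell = 478 from rfl, c_ll h1, c_lk h1]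
    have h3 := mul_le_mul_of_nonneg_right (abs_Kq (SN.K (2 * i)))
      (mul_nonneg (cl_nonneg h1) (bk_nonneg h1))
    linarith
  refine (sum_le_sum h0).trans ?_
  have h4 := sum_cl_bk_K SN.kb.toKBound
  refine h4.trans ?_
  norm_num

end SFC
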